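import Pool.Agent.E8helper61.Mag.OMDefs

/-!
MAG-GATE: the gated matching.
-/

set_option autoImplicit false

namespace H61Mag

section Lists

variable {α : Type*}

theorem Del.dropWhile (p : α → Bool) {l l' : List α} (h : Del l l') :
    (l'.dropWhile p = l.dropWhile p ∧ Del (l.takeWhile p) (l'.takeWhile p)) ∨
      (l'.dropWhile p).length < (l.dropWhile p).length := by
  induction l generalizing l' with
  | nil => exact absurd h not_Del_nil
  | cons a l ih =>
    by_cases ha : p a = true
    · rw [Del_cons_iff] at h
      rcases h with rfl | ⟨l'', h, rfl⟩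
      · left
        rw [List.dropWhile_cons_of_pos ha, List.takeWhile_cons_of_pos ha]
        exact ⟨rfl, [], a, _, rfl, rfl⟩
      · rw [List.dropWhile_cons_of_pos ha, List.takeWhile_cons_of_pos ha,
          List.dropWhile_cons_of_pos ha, List.takeWhile_cons_of_pos ha]
        rcases ih h with ⟨h1, h2⟩ | h1
        · left
          exact ⟨h1, Del_cons_iff.2 (Or.inr ⟨_, h2, rfl⟩)⟩
        · right
          exact h1
    · right
      have h2 := h.length
      have h3 := (List.dropWhile_sublist p (l := l')).length_le
      rw [List.dropWhile_cons_of_neg ha]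
      omega

open Classical in
/-- remove a final entry `g` -/
noncomputable def strip (g : α) (s : List α) : List α :=
  if s.getLast? = some g then s.dropLast else s

theorem strip_length (g : α) (s : List α) : (strip g s).length ≤ s.length := by
  unfold strip
  split_ifs
  · rw [List.length_dropLast]; omega
  · exact le_refl _

theorem strip_append (g : α) (s : List α) : strip g (s ++ [g]) = s := by
  unfold strip
  rw [if_pos (by simp)]
  simp

theorem strip_of_ne (g : α) {s : List α} (h : s.getLast? ≠ some g) : strip g s = s := by
  unfold strip
  rw [if_neg h]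

theorem strip_cases (g : α) (s : List α) :
    (strip g s = s ∧ s.getLast? ≠ some g) ∨ s = strip g s ++ [g] := by
  by_cases h : s.getLast? = some g
  · right
    obtain ⟨r, rfl⟩ := List.getLast?_eq_some_iff.1 h
    rw [strip_append]
  · exact Or.inl ⟨strip_of_ne g h, h⟩

theorem Del.strip (g : α) {s s' : List α} (h : Del s s') :
    H61Mag.strip g s' = H61Mag.strip g s ∨
      (H61Mag.strip g s').length < (H61Mag.strip g s).length := by
  have h1 := h.length
  have h2 := strip_length g s'
  rcases strip_cases g s with ⟨h3, -⟩ | h3
  · right
    rw [h3]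
    omega
  · obtain ⟨r, hr⟩ : ∃ r, r = H61Mag.strip g s := ⟨_, rfl⟩
    rw [← hr] at h3 ⊢
    subst h3
    rw [List.length_append, List.length_singleton] at h1
    by_cases h4 : (H61Mag.strip g s').length < r.length
    · exact Or.inr h4
    · left
      have h5 : H61Mag.strip g s' = s' := by
        rcases strip_cases g s' with ⟨h6, -⟩ | h6
        · exact h6
        · have h7 := congrArg List.length h6
          rw [List.length_append, List.length_singleton] at h7
          omega
      obtain ⟨a, e, t, h6, rfl⟩ := h
      rcases t.eq_nil_or_concat with rfl | ⟨t, b, rfl⟩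
      · have h7 := List.append_inj' h6 rfl
        rw [h5, List.append_nil]
        exact h7.1.symm
      · exfalso
        have h8 : r ++ [g] = (a ++ e :: t) ++ [b] := by
          rw [h6]
          simp
        have h9 := List.append_inj' h8 rfl
        have h10 : g = b := by simpa using h9.2
        subst h10
        rw [show a ++ t.concat g = (a ++ t) ++ [g] by simp, strip_append] at h5
        have h11 := congrArg List.length h5
        simp at h11

end Lists

section Cross

variable {ι : Type*} [Fintype ι] [DecidableEq ι]

theorem cross_cons_cons (a b : Sg ι) (l : List (Sg ι)) (i : ι) :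
    cross (a :: b :: l) i = (if a i ≠ b i then 1 else 0) + cross (b :: l) i := rfl

theorem ind_tri (a b c : SignType) :
    (if a ≠ c then 1 else 0 : ℕ) ≤ (if a ≠ b then 1 else 0) + (if b ≠ c then 1 else 0) := by
  by_cases h1 : a = b
  · subst h1; simp
  · by_cases h2 : a = c <;> simp [h1, h2]

theorem cross_del {l l' : List (Sg ι)} (h : Del l l') (a : Sg ι) (i : ι) :
    cross (a :: l') i ≤ cross (a :: l) i := by
  induction l generalizing l' a with
  | nil => exact absurd h not_Del_nil
  | cons b l ih =>
    rw [Del_cons_iff] at h
    rcases h with rfl | ⟨l'', h, rfl⟩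
    · cases l' with
      | nil => exact Nat.zero_le _
      | cons c l2 =>
        rw [cross_cons_cons, cross_cons_cons, cross_cons_cons]
        have := ind_tri (a i) (b i) (c i)
        omega
    · rw [cross_cons_cons, cross_cons_cons]
      have := ih h b
      omega

theorem del_eq {l l' : List (Sg ι)} (h : Del l l') (a : Sg ι)
    (hch : List.IsChain (· ≠ ·) (a :: l)) (hc : cross (a :: l') = cross (a :: l)) :
    List.IsChain (· ≠ ·) (a :: l') ∧ l'.getLast? = l.getLast? ∧
      ∀ b, l.head? = some b → ∃ b', l'.head? = some b' ∧ sep a b ⊆ sep a b' := by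
  induction l generalizing l' a with
  | nil => exact absurd h not_Del_nil
  | cons b l ih =>
    rw [List.isChain_cons_cons] at hch
    rw [Del_cons_iff] at h
    rcases h with rfl | ⟨l'', h, rfl⟩
    · obtain ⟨i, hi⟩ := Function.ne_iff.1 hch.1
      cases l' with
      | nil =>
        exfalso
        have h1 := congrFun hc i
        rw [cross_cons_cons, if_pos hi] at h1
        simp [cross] at h1
      | cons c l2 =>
        have h1 : ∀ j, (if a j ≠ c j then 1 else 0 : ℕ) =
            (if a j ≠ b j then 1 else 0) + (if b j ≠ c j then 1 else 0) := by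
          intro j
          have h2 := congrFun hc j
          rw [cross_cons_cons, cross_cons_cons, cross_cons_cons] at h2
          omega
        have h3 : ∀ j, a j ≠ b j → a j ≠ c j := by
          intro j hj
          by_contra h4
          have h5 := h1 j
          rw [if_neg (not_not.2 h4), if_pos hj] at h5
          omega
        refine ⟨?_, ?_, ?_⟩
        · rw [List.isChain_cons_cons]
          exact ⟨Function.ne_iff.2 ⟨i, h3 i hi⟩, (List.isChain_cons_cons.1 hch.2).2⟩
        · rw [List.getLast?_cons_cons]
        · intro b' hb'
          simp only [List.head?_cons, Option.some.injEq] at hb'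
          subst hb'
          refine ⟨c, by simp, fun j hj => ?_⟩
          rw [mem_sep] at hj ⊢
          exact h3 j hj
    · have h1 : cross (b :: l'') = cross (b :: l) := by
        funext j
        have h2 := congrFun hc j
        rw [cross_cons_cons, cross_cons_cons] at h2
        omega
      obtain ⟨h2, h3, -⟩ := ih h b hch.2 h1
      refine ⟨?_, ?_, ?_⟩
      · rw [List.isChain_cons_cons]
        exact ⟨hch.1, h2⟩
      · rw [List.getLast?_cons, List.getLast?_cons, h3]
      · intro b' hb'
        simp only [List.head?_cons, Option.some.injEq] at hb'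
        subst hb'
        exact ⟨b, by simp, subset_rfl⟩

variable {Cov : Set (Sg ι)} {x y : Sg ι} {m : ι → ℕ} {B : Finset ι}

theorem WB_del {l l' : List (Sg ι)} (hl : l ∈ WB Cov x y m B) (h : Del l l')
    (hc : cross (x :: l') = m) : l' ∈ WB Cov x y m B := by
  obtain ⟨⟨h1, h2, h3, h4⟩, a, h5, h6⟩ := hl
  obtain ⟨g1, g2, g3⟩ := del_eq h x h2 (hc.trans h4.symm)
  obtain ⟨b', g4, g5⟩ := g3 a h5
  exact ⟨⟨fun e he => h1 e (h.sublist.subset he), g1, g2.trans h3, hc⟩, b', g4, h6.trans g5⟩

theorem WB_convex : Convex1 (WB Cov x y m B) := by
  intro l hl l' h1 l'' hl'' h2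
  refine WB_del hl h1 ?_
  funext i
  have e1 := cross_del h1 x i
  have e2 := cross_del h2 x i
  have e3 := congrFun hl.1.2.2.2 i
  have e4 := congrFun hl''.1.2.2.2 i
  omega

/-- walks inside the star of `F` only cross the zero set of `F` -/
theorem cross_star {F : Sg ι} {i : ι} (hi : F i ≠ 0) (l : List (Sg ι)) (x : Sg ι)
    (hx : le F x) (hl : ∀ a ∈ l, le F a) : cross (x :: l) i = 0 := by
  induction l generalizing x with
  | nil => rfl
  | cons b l ih =>
    have hb : le F b := hl b (by simp)
    rw [cross_cons_cons, ih b hb (fun a ha => hl a (by simp [ha])), if_neg]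
    rw [not_not, ← (hx i).resolve_left hi, ← (hb i).resolve_left hi]

/-- insertion of the gate -/
theorem cross_gate {F o g : Sg ι} (hg : g = comp F o) (ρ : List (Sg ι)) (s : List (Sg ι))
    (x : Sg ι) (hx : le F x) (hs : ∀ a ∈ s, le F a) :
    cross (x :: (s ++ g :: o :: ρ)) = cross (x :: (s ++ o :: ρ)) := by
  funext i
  induction s generalizing x with
  | nil =>
    rw [List.nil_append, List.nil_append, cross_cons_cons, cross_cons_cons, cross_cons_cons]
    have h1 : (if x i ≠ g i then 1 else 0 : ℕ) + (if g i ≠ o i then 1 else 0) =
        if x i ≠ o i then 1 else 0 := by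
      by_cases h : F i = 0
      · have h2 : g i = o i := by rw [hg, comp, if_pos h]
        simp [h2]
      · have h2 : g i = x i := by rw [hg, comp, if_neg h, (hx i).resolve_left h]
        simp [h2]
    omega
  | cons b s ih =>
    rw [List.cons_append, List.cons_append, cross_cons_cons, cross_cons_cons,
      ih b (hs b (by simp)) (fun a ha => hs a (by simp [ha]))]

theorem chain_gate {F o g : Sg ι} (hgo : g ≠ o) (ho : ¬ le F o) (ρ : List (Sg ι))
    (s : List (Sg ι)) (x : Sg ι) (hx : le F x) (hs : ∀ a ∈ s, le F a)
    (hne : (x :: s).getLast? ≠ some g) :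
    List.IsChain (· ≠ ·) (x :: (s ++ g :: o :: ρ)) ↔
      List.IsChain (· ≠ ·) (x :: (s ++ o :: ρ)) := by
  induction s generalizing x with
  | nil =>
    rw [List.nil_append, List.nil_append, List.isChain_cons_cons, List.isChain_cons_cons,
      List.isChain_cons_cons]
    have h1 : x ≠ g := by
      rintro rfl
      exact hne (by simp)
    have h2 : x ≠ o := by
      rintro rfl
      exact ho hx
    tauto
  | cons b s ih =>
    rw [List.cons_append, List.cons_append, List.isChain_cons_cons, List.isChain_cons_cons,
      ih b (hs b (by simp)) (fun a ha => hs a (by simp [ha])) (by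
        rwa [List.getLast?_cons_cons] at hne)]

end Cross

/-- (GATE) -/
theorem t_GATE : S_GATE := by
  classical
  intro ι _ _ Cov hOM x hx y hy m F hF hFx hq hqm
  -- the gates
  let p : Sg ι → Bool := fun a => decide (le F a)
  have hp : ∀ a, p a = true ↔ le F a := fun a => decide_eq_true_iff
  -- level 1
  refine acy_of_blocks (sq_of_convex WB_convex) (fun l => l.dropWhile p) List.length ?_ ?_
  · intro l _ l' _ hne
    rcases (Del_of_Dl_ne hne).dropWhile p with ⟨h, -⟩ | h
    · exact Or.inl h
    · exact Or.inr h
  intro t
  cases t with
  | nil =>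
    -- every walk leaves the star
    refine acy_empty.congr ?_
    symm
    rw [Set.eq_empty_iff_forall_notMem]
    rintro l ⟨⟨⟨h1, h2, h3, h4⟩, a, h5, h6⟩, h7⟩
    have h8 : ∀ a ∈ l, le F a := fun a ha => (hp a).1 (List.dropWhile_eq_nil_iff.1 h7 a ha)
    apply hqm
    apply Finset.Subset.antisymm
    · intro i hi
      have h9 := h6 hi
      rw [mem_sep] at h9
      simp only [supp, Finset.mem_filter, Finset.mem_univ, true_and]
      obtain ⟨l', rfl⟩ : ∃ l', l = a :: l' := by
        cases l with
        | nil => simp at h5
        | cons b l =>
          simp only [List.head?_cons, Option.some.injEq] at h5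
          exact ⟨l, by rw [h5]⟩
      rw [← h4, cross_cons_cons, if_pos h9]
      omega
    · intro i hi
      simp only [supp, Finset.mem_filter, Finset.mem_univ, true_and] at hi
      rw [mem_z]
      by_contra h9
      exact hi (by rw [← h4]; exact cross_star h9 l x hFx h8)
  | cons o ρ =>
    by_cases hneS : ∃ l, l ∈ WB Cov x y m (z F) ∧ l.dropWhile p = o :: ρ
    swap
    · refine acy_empty.congr ?_
      symm
      rw [Set.eq_empty_iff_forall_notMem]
      intro l hl
      exact hneS ⟨l, hl⟩
    obtain ⟨l0, hl0, hl0'⟩ := hneS
    have hop : ¬ le F o := by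
      intro h
      have h1 := List.head?_dropWhile_not p l0
      rw [hl0'] at h1
      simp only [List.head?_cons] at h1
      rw [(hp o).2 h] at h1
      exact absurd h1 (by simp)
    have hoT : o ∈ Tp Cov := by
      apply hl0.1.1
      apply (List.dropWhile_sublist p (l := l0)).subset
      rw [hl0']
      simp
    obtain ⟨g, hg⟩ : ∃ g, g = comp F o := ⟨_, rfl⟩
    have hFg : le F g := hg ▸ le_comp F o
    have hgT : g ∈ Tp Cov := by
      refine ⟨hg ▸ hOM.comp F hF o hoT.1, ?_⟩
      rw [hg, z_comp, hoT.2, Finset.inter_empty]
    have hgo : g ≠ o := by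
      rintro rfl
      exact hop hFg
    have hgq : ∀ i ∈ z F, g i = o i := by
      intro i hi
      rw [mem_z] at hi
      rw [hg, comp, if_pos hi]
    have hnp : p o = false := by
      rw [Bool.eq_false_iff]
      intro h
      exact hop ((hp o).1 h)
    -- convexity of the block
    have hconv : Convex1 {l | l ∈ WB Cov x y m (z F) ∧ l.dropWhile p = o :: ρ} := by
      intro l hl l' h1 l'' hl'' h2
      refine ⟨WB_convex l hl.1 l' h1 l'' hl''.1 h2, ?_⟩
      rcases h1.dropWhile p with ⟨h3, -⟩ | h3
      · exact h3.trans hl.2
      · rcases h2.dropWhile p with ⟨h4, -⟩ | h4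
        · exact h4.symm.trans hl''.2
        · rw [hl''.2] at h4
          rw [hl.2] at h3
          omega
    refine acy_of_blocks (sq_of_convex hconv) (fun l => strip g (l.takeWhile p)) List.length
      ?_ ?_
    · intro l hl l' hl' hne
      rcases (Del_of_Dl_ne hne).dropWhile p with ⟨-, h⟩ | h
      · exact h.strip g
      · exfalso
        rw [hl.2, hl'.2] at h
        omega
    intro s
    by_cases hsg : s.getLast? = some g
    · -- a repeated gate
      refine acy_empty.congr ?_
      symm
      rw [Set.eq_empty_iff_forall_notMem]
      rintro l ⟨⟨hl1, hl2⟩, hl3⟩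
      rcases strip_cases g (l.takeWhile p) with ⟨h1, h2⟩ | h1
      · rw [hl3] at h1
        exact h2 (by rw [← h1]; exact hsg)
      · rw [hl3] at h1
        obtain ⟨r, rfl⟩ := List.getLast?_eq_some_iff.1 hsg
        have h2 := List.takeWhile_append_dropWhile (p := p) (l := l)
        rw [h1, hl2] at h2
        have h3 := hl1.1.2.1
        rw [← h2] at h3
        have h4 : x :: (r ++ [g] ++ [g] ++ o :: ρ) = (x :: r) ++ g :: g :: o :: ρ := by simp
        rw [h4, List.isChain_append] at h3
        exact absurd rfl (List.isChain_cons_cons.1 h3.2.1).1
    -- the elements of the block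
    have key : ∀ s : List (Sg ι), (∀ a ∈ s, le F a) →
        ((s ++ o :: ρ).takeWhile p = s ∧ (s ++ o :: ρ).dropWhile p = o :: ρ) := by
      intro s hs
      constructor
      · rw [List.takeWhile_append_of_pos (fun a ha => (hp a).2 (hs a ha)),
          List.takeWhile_cons_of_neg (by rw [hnp]; simp), List.append_nil]
      · rw [List.dropWhile_append_of_pos (fun a ha => (hp a).2 (hs a ha)),
          List.dropWhile_cons_of_neg (by rw [hnp]; simp)]
    have tw : ∀ (l : List (Sg ι)) (a : Sg ι), a ∈ l.takeWhile p → le F a := fun l a ha =>
      (hp a).1 (List.mem_takeWhile_imp ha)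
    refine acy_pair s (o :: ρ) g hsg (by
      rw [List.head?_cons]
      intro h
      exact hgo (Option.some.inj h).symm) ?_ ?_
    · rintro l ⟨⟨hl1, hl2⟩, hl3⟩
      have h2 := List.takeWhile_append_dropWhile (p := p) (l := l)
      rw [hl2] at h2
      rcases strip_cases g (l.takeWhile p) with ⟨h1, -⟩ | h1
      · left
        rw [hl3] at h1
        rw [← h2, ← h1]
      · right
        rw [hl3] at h1
        rw [← h2, h1]
        simp
    · constructor
      · rintro ⟨⟨⟨⟨h1, h2, h3, h4⟩, a, h5, h6⟩, hl2⟩, hl3⟩
        have h7 : (s ++ o :: ρ).takeWhile p = s := by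
          have h2 := List.takeWhile_append_dropWhile (p := p) (l := s ++ o :: ρ)
          rw [hl2] at h2
          exact List.append_cancel_right h2
        have hs : ∀ a ∈ s, le F a := fun a ha => tw _ a (by rw [h7]; exact ha)
        have hxs : (x :: s).getLast? ≠ some g := by
          cases s with
          | nil =>
            intro h
            have hxg : x = g := by simpa using h
            simp only [List.nil_append, List.head?_cons, Option.some.injEq] at h5
            obtain ⟨i, hi⟩ := Finset.nonempty_iff_ne_empty.2 hq
            have h8 := h6 hi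
            rw [mem_sep, ← h5, hxg] at h8
            exact h8 (hgq i hi)
          | cons b s => rwa [List.getLast?_cons_cons]
        have hs' : ∀ a ∈ s ++ [g], le F a := by
          intro a ha
          rcases List.mem_append.1 ha with h | h
          · exact hs a h
          · rw [List.mem_singleton] at h
            rw [h]
            exact hFg
        have e1 : s ++ g :: o :: ρ = (s ++ [g]) ++ o :: ρ := by simp
        refine ⟨⟨⟨⟨?_, ?_, ?_, ?_⟩, ?_⟩, ?_⟩, ?_⟩
        · intro b hb
          rcases List.mem_append.1 hb with h | h
          · exact h1 b (by simp [h])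
          · rcases List.mem_cons.1 h with rfl | h
            · exact hgT
            · exact h1 b (List.mem_append_right _ h)
        · exact (chain_gate hgo hop ρ s x hFx hs hxs).2 h2
        · rw [← h3]
          simp [List.getLast?_append]
        · rw [cross_gate hg ρ s x hFx hs]
          exact h4
        · cases s with
          | nil =>
            refine ⟨g, by simp, ?_⟩
            simp only [List.nil_append, List.head?_cons, Option.some.injEq] at h5
            intro i hi
            have h8 := h6 hi
            rw [mem_sep, ← h5] at h8
            rw [mem_sep, hgq i hi]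
            exact h8
          | cons b s =>
            simp only [List.cons_append, List.head?_cons, Option.some.injEq] at h5
            exact ⟨b, by simp, by rw [h5]; exact h6⟩
        · rw [e1]
          exact (key _ hs').2
        · show strip g ((s ++ g :: o :: ρ).takeWhile p) = s
          rw [e1, (key _ hs').1, strip_append]
      · rintro ⟨⟨⟨⟨h1, h2, h3, h4⟩, a, h5, h6⟩, hl2⟩, hl3⟩
        have e1 : s ++ g :: o :: ρ = (s ++ [g]) ++ o :: ρ := by simp
        have h7 : (s ++ g :: o :: ρ).takeWhile p = s ++ [g] := by
          have h2 := List.takeWhile_append_dropWhile (p := p) (l := s ++ g :: o :: ρ)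
          rw [hl2] at h2
          rw [e1] at h2 ⊢
          exact List.append_cancel_right h2
        have hs : ∀ a ∈ s, le F a := fun a ha => tw _ a (by rw [h7]; simp [ha])
        have hxs : (x :: s).getLast? ≠ some g := by
          cases s with
          | nil =>
            intro h
            have hxg : x = g := by simpa using h
            rw [List.nil_append, List.isChain_cons_cons] at h2
            exact h2.1 hxg
          | cons b s => rwa [List.getLast?_cons_cons]
        refine ⟨⟨⟨⟨?_, ?_, ?_, ?_⟩, ?_⟩, ?_⟩, ?_⟩
        · intro b hb
          apply h1 b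
          rcases List.mem_append.1 hb with h | h
          · simp [h]
          · exact List.mem_append_right _ (List.mem_cons_of_mem _ h)
        · exact (chain_gate hgo hop ρ s x hFx hs hxs).1 h2
        · rw [← h3]
          simp [List.getLast?_append]
        · rw [← cross_gate hg ρ s x hFx hs]
          exact h4
        · cases s with
          | nil =>
            refine ⟨o, by simp, ?_⟩
            simp only [List.nil_append, List.head?_cons, Option.some.injEq] at h5
            intro i hi
            have h8 := h6 hi
            rw [mem_sep, ← h5, hgq i hi] at h8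
            rw [mem_sep]
            exact h8
          | cons b s =>
            simp only [List.cons_append, List.head?_cons, Option.some.injEq] at h5
            exact ⟨b, by simp, by rw [h5]; exact h6⟩
        · exact (key _ hs).2
        · show strip g ((s ++ o :: ρ).takeWhile p) = s
          rw [(key _ hs).1, strip_of_ne g hsg]

end H61Mag
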